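import Pool.Agent.Y957.MC.Box
import Pool.Agent.Y957.MC.Fin4

set_option autoImplicit false

/-! Unrestricted boxes: one generic factor, arbitrary bounded weights. -/

namespace Pool.Agent.R497.Er

open MeasureTheory Filter Finset Pool.Agent.Y957.MC

universe u

/-- boxes of all shapes -/
lemma tendsto_of_TZ {k : ℕ} (hk : 0 < k) {H : (Fin k → ℕ) → ℂ} (h : ∀ i, TZ i H) : Tendsto H atTop (nhds 0) := by
  rw [Metric.tendsto_atTop]
  intro ε hε
  choose N hN using fun i => h i (ε / 2) (by positivity)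
  have : Nonempty (Fin k) := ⟨⟨0, hk⟩⟩
  refine ⟨fun _ => Finset.univ.sup N, fun M hM => ?_⟩
  obtain ⟨i, -, hi⟩ := Finset.exists_max_image (Finset.univ : Finset (Fin k)) M Finset.univ_nonempty
  have h1 := hN i M (fun l => (Finset.le_sup (f := N) (Finset.mem_univ i)).trans (hM l)) (fun l => hi l (Finset.mem_univ l))
  rw [dist_zero_right]
  linarith

lemma bavg_add {k : ℕ} (M : Fin k → ℕ) (g h : (Fin k → ℕ) → ℂ) :
    bavg M (fun m => g m + h m) = bavg M g + bavg M h := by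
  unfold bavg
  rw [sum_add_distrib, mul_add]

lemma bavg_mul {k : ℕ} (M : Fin k → ℕ) (c : ℂ) (h : (Fin k → ℕ) → ℂ) :
    bavg M (fun m => c * h m) = c * bavg M h := by
  unfold bavg
  rw [← mul_sum]
  ring

/-- measurable functions -/
theorem box_cx {X : Type u} [MeasurableSpace X] {μ : Measure X} [IsProbabilityMeasure μ] {k : ℕ} (hk : 0 < k)
    {c : Fin k → ℝ} (hc : ∀ i, c i ≠ 0) {τ : ℝ → X → X} (hτ : IsFlow μ τ) {g : X → ℂ} (hgm : Measurable g)
    (hgb : ∃ C : ℝ, ∀ x, ‖g x‖ ≤ C) :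
    ∀ᵐ x ∂μ, ∀ B : (Fin k → ℕ) → ℂ, (∀ m, ‖B m‖ ≤ 1) → ∀ᵐ a : ℝ,
      Tendsto (fun M => bavg M (fun m => B m * (g (τ (a * lin c m) x) - (μ[g | flowInv τ]) x))) atTop (nhds 0) := by
  obtain ⟨C, hC⟩ := hgb
  have hint : Integrable g μ := Integrable.of_bound hgm.aestronglyMeasurable C (ae_of_all _ hC)
  have hre : ∀ᵐ x ∂μ, ∀ i : Fin k, _ := ae_all_iff.2 fun i => flwc_all.{u} k c i (hc i) X μ τ (fun x => (g x).re) hτ
    (Complex.measurable_re.comp hgm) ⟨C, fun x => (Complex.abs_re_le_norm _).trans (hC x)⟩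
  have him : ∀ᵐ x ∂μ, ∀ i : Fin k, _ := ae_all_iff.2 fun i => flwc_all.{u} k c i (hc i) X μ τ (fun x => (g x).im) hτ
    (Complex.measurable_im.comp hgm) ⟨C, fun x => (Complex.abs_im_le_norm _).trans (hC x)⟩
  have h3 := condExp_re_im (m := flowInv τ) hint
  filter_upwards [hre, him, h3] with x hx1 hx2 hx4 B hB
  have ha1' : ∀ᵐ a : ℝ, ∀ i : Fin k, _ := ae_all_iff.2 fun i => hx1 i B hB
  have ha2' : ∀ᵐ a : ℝ, ∀ i : Fin k, _ := ae_all_iff.2 fun i => hx2 i B hB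
  filter_upwards [ha1', ha2'] with a ha1 ha2
  have h5 := tendsto_of_TZ hk ha1
  have h6 := tendsto_of_TZ hk ha2
  have h8 := h5.add (h6.const_mul Complex.I)
  rw [mul_zero, add_zero] at h8
  refine h8.congr fun M => ?_
  rw [← bavg_mul, ← bavg_add]
  congr 1
  funext m
  rw [hx4]
  have e := Complex.re_add_im (g (τ (a * lin c m) x))
  conv_rhs => rw [← e]
  push_cast
  ring

/-- `L^∞` functions -/
theorem box_Linf {X : Type u} [MeasurableSpace X] {μ : Measure X} [IsProbabilityMeasure μ] {k : ℕ} (hk : 0 < k)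
    {c : Fin k → ℝ} (hc : ∀ i, c i ≠ 0) {τ : ℝ → X → X} (hτ : IsFlow μ τ) {h : X → ℂ}
    (hh : AEStronglyMeasurable h μ) (hhb : ∃ C : ℝ, ∀ᵐ x ∂μ, ‖h x‖ ≤ C) :
    ∀ᵐ x ∂μ, ∀ B : (Fin k → ℕ) → ℂ, (∀ m, ‖B m‖ ≤ 1) → ∀ᵐ a : ℝ,
      Tendsto (fun M => bavg M (fun m => B m * (h (τ (a * lin c m) x) - (μ[h | flowInv τ]) x))) atTop (nhds 0) := by
  obtain ⟨g, hgm, hgb, hfg⟩ := exists_version hh hhb
  have h2 : ∀ᵐ x ∂μ, (μ[h | flowInv τ]) x = (μ[g | flowInv τ]) x := condExp_congr_ae hfg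
  have h4 : ∀ᵐ x ∂μ, ∀ᵐ t : ℝ, h (τ t x) = g (τ t x) := by
    obtain ⟨E, hE, hEm, hE0⟩ : ∃ E : Set X, {x | ¬ h x = g x} ⊆ E ∧ MeasurableSet E ∧ μ E = 0 :=
      exists_measurable_superset_of_null (ae_iff.mp hfg)
    have h5 : ∀ᵐ x ∂μ, ∀ᵐ t : ℝ, τ t x ∉ E := by
      have hset : MeasurableSet {q : ℝ × X | τ q.1 q.2 ∉ E} := hτ.meas hEm.compl
      rw [← Measure.ae_ae_comm hset]
      refine ae_of_all _ fun t => ?_
      exact (hτ.mp t).quasiMeasurePreserving.ae (show ∀ᵐ x ∂μ, x ∉ E from by rw [ae_iff]; simpa using hE0)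
    filter_upwards [h5] with ω hω
    filter_upwards [hω] with t ht
    by_contra hne
    exact ht (hE hne)
  filter_upwards [box_cx hk hc hτ hgm hgb, h2, h4, hfg] with x hx1 hx2 hx4 hx5 B hB
  have h6 : ∀ᵐ a : ℝ, ∀ m : Fin k → ℕ, h (τ (a * lin c m) x) = g (τ (a * lin c m) x) := by
    rw [ae_all_iff]
    intro m
    by_cases hm : lin c m = 0
    · refine ae_of_all _ fun a => ?_
      rw [hm, mul_zero, hτ.zero]
      exact hx5
    · rw [ae_iff] at hx4 ⊢
      have h8 := Real.volume_preimage_mul_right hm {t : ℝ | ¬ h (τ t x) = g (τ t x)}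
      rw [hx4, mul_zero] at h8
      exact h8
  filter_upwards [hx1 B hB, h6] with a ha1 ha2
  refine ha1.congr fun M => ?_
  simp only [ha2, hx2]

/-- weights which depend measurably on the point -/
theorem box_weights {X : Type u} [MeasurableSpace X] {μ : Measure X} [IsProbabilityMeasure μ] {k : ℕ} (hk : 0 < k)
    {c : Fin k → ℝ} (hc : ∀ i, c i ≠ 0) {τ : ℝ → X → X} (hτ : IsFlow μ τ) {h : X → ℂ}
    (hh : AEStronglyMeasurable h μ) (hhb : ∃ C : ℝ, ∀ᵐ x ∂μ, ‖h x‖ ≤ C) {W : (Fin k → ℕ) → X → ℂ}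
    (hW : ∀ m, AEStronglyMeasurable (W m) μ) (hWb : ∃ C : ℝ, ∀ m, ∀ᵐ x ∂μ, ‖W m x‖ ≤ C) :
    ∀ᵐ a : ℝ, ∀ᵐ x ∂μ,
      Tendsto (fun M => bavg M (fun m => W m x * (h (τ (a * lin c m) x) - (μ[h | flowInv τ]) x))) atTop (nhds 0) := by
  obtain ⟨C0, hC0⟩ := hWb
  obtain ⟨D, hD⟩ : ∃ D : ℝ, D = |C0| + 1 := ⟨_, rfl⟩
  have hD0 : 0 < D := by rw [hD]; positivity
  have hC0D : C0 ≤ D := by rw [hD]; linarith [le_abs_self C0]
  -- versions
  obtain ⟨g, hgm, ⟨C, hC⟩, hfg⟩ := exists_version hh hhb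
  set W' : (Fin k → ℕ) → X → ℂ := fun n x => if ‖(hW n).mk (W n) x‖ ≤ D then (hW n).mk (W n) x else 0 with hW'
  have hWm : ∀ n, Measurable (W' n) := fun n =>
    Measurable.ite (measurableSet_le (hW n).stronglyMeasurable_mk.measurable.norm measurable_const)
      (hW n).stronglyMeasurable_mk.measurable measurable_const
  have hWD : ∀ n x, ‖W' n x‖ ≤ D := by
    intro n x
    simp only [hW']
    split_ifs with h1
    · exact h1
    · rw [norm_zero]; exact hD0.le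
  have hWeq : ∀ᵐ x ∂μ, ∀ n, W n x = W' n x := by
    rw [ae_all_iff]
    intro n
    filter_upwards [hC0 n, (hW n).ae_eq_mk] with x h1 h2
    simp only [hW']
    rw [← h2, if_pos (h1.trans hC0D)]
  set E : X → ℂ := μ[g | flowInv τ] with hE
  have hEm : Measurable E :=
    (stronglyMeasurable_condExp.mono (Pool.Agent.Y312.MC.flowInv_le τ)).measurable
  have hEeq : ∀ᵐ x ∂μ, (μ[h | flowInv τ]) x = E x := condExp_congr_ae hfg
  set d : (Fin k → ℕ) → ℝ × X → ℂ := fun M q => bavg M (fun m => W' m q.2 *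
    (g (τ (q.1 * lin c m) q.2) - E q.2)) with hd
  have hgS : ∀ m : Fin k → ℕ, Measurable fun q : ℝ × X => g (τ (q.1 * lin c m) q.2) := by
    intro m
    exact hgm.comp (hτ.meas.comp ((measurable_fst.mul_const _).prodMk measurable_snd))
  have hdm : ∀ M, Measurable (d M) := by
    intro M
    refine measurable_const.mul (Finset.measurable_sum _ fun n _ => ?_)
    exact ((hWm n).comp measurable_snd).mul ((hgS n).sub (hEm.comp measurable_snd))
  have hSm : MeasurableSet {q : ℝ × X | Tendsto (fun M => d M q) atTop (nhds 0)} :=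
    measurableSet_tendsto (nhds (0 : ℂ)) hdm
  have h1 : ∀ᵐ x ∂μ, ∀ᵐ a : ℝ, (a, x) ∈ {q : ℝ × X | Tendsto (fun M => d M q) atTop (nhds 0)} := by
    filter_upwards [box_cx hk hc hτ hgm ⟨C, hC⟩] with x hx
    have h2 := hx (fun n => (1 / (D : ℂ)) * W' n x) (fun n => by
      rw [norm_mul, norm_div, norm_one, Complex.norm_real, Real.norm_eq_abs, abs_of_pos hD0, one_div,
        inv_mul_le_iff₀ hD0, mul_one]
      exact hWD n x)
    filter_upwards [h2] with a ha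
    have h3 := ha.const_mul (D : ℂ)
    rw [mul_zero] at h3
    have hDc : (D : ℂ) ≠ 0 := by exact_mod_cast hD0.ne'
    refine h3.congr fun M => ?_
    simp only [hd, hE]
    rw [← bavg_mul]
    congr 1
    funext m
    field_simp
  have h3 := (Measure.ae_ae_comm (μ := (volume : Measure ℝ)) (ν := μ)
    (p := fun a x => (a, x) ∈ {q : ℝ × X | Tendsto (fun M => d M q) atTop (nhds 0)}) hSm).2 h1
  filter_upwards [h3] with a ha
  have hSeq : ∀ᵐ x ∂μ, ∀ m : Fin k → ℕ, h (τ (a * lin c m) x) = g (τ (a * lin c m) x) := by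
    rw [ae_all_iff]
    intro m
    exact (hτ.mp _).quasiMeasurePreserving.ae hfg
  filter_upwards [ha, hWeq, hEeq, hSeq] with x hx h4 h5 h6
  have h7 : Tendsto (fun M => d M (a, x)) atTop (nhds 0) := hx
  refine h7.congr fun M => ?_
  simp only [hd, h4, h5, h6]

end Pool.Agent.R497.Er
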