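import Pool.Agent.Y957.MC.Maps

set_option autoImplicit false

/-! One factor at Beatty type times of an arbitrary map, arbitrary bounded weights. -/

namespace Pool.Agent.R497.Er

open MeasureTheory Filter Finset Pool.Agent.Y957.MC

universe u

/-- complex functions -/
theorem bty_cx {X : Type u} [MeasurableSpace X] {μ : Measure X} [IsProbabilityMeasure μ] {p : ℕ → ℝ} (hp : Good p)
    {S : X → X} (hS : MeasurePreserving S μ μ) {h : X → ℂ} (hh : AEStronglyMeasurable h μ)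
    (hhb : ∃ C : ℝ, ∀ᵐ x ∂μ, ‖h x‖ ≤ C) :
    ∀ᵐ x ∂μ, ∀ B : ℕ → ℂ, (∀ n, ‖B n‖ ≤ 1) → ∀ᵐ a : ℝ ∂(volume.restrict (Set.Ioi (0 : ℝ))),
      Tendsto (fun N : ℕ => (1 / (N : ℂ)) * ∑ n ∈ Icc 1 N, B n *
        (h (S^[⌊a * p n⌋₊] x) - (μ[h | MeasurableSpace.invariants S]) x)) atTop (nhds 0) := by
  obtain ⟨g, hgm, ⟨C, hC⟩, hfg⟩ := exists_version hh hhb
  have hint : Integrable g μ := Integrable.of_bound hgm.aestronglyMeasurable C (ae_of_all _ hC)
  have hre := bty_all p hp X μ S (fun x => (g x).re) hS (Complex.measurable_re.comp hgm)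
    ⟨C, fun x => (Complex.abs_re_le_norm _).trans (hC x)⟩
  have him := bty_all p hp X μ S (fun x => (g x).im) hS (Complex.measurable_im.comp hgm)
    ⟨C, fun x => (Complex.abs_im_le_norm _).trans (hC x)⟩
  have h2 : ∀ᵐ x ∂μ, (μ[h | MeasurableSpace.invariants S]) x = (μ[g | MeasurableSpace.invariants S]) x :=
    condExp_congr_ae hfg
  have h3 := condExp_re_im (m := MeasurableSpace.invariants S) hint
  have h4 : ∀ᵐ x ∂μ, ∀ k : ℕ, h (S^[k] x) = g (S^[k] x) := by
    rw [ae_all_iff]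
    intro k
    exact (hS.iterate k).quasiMeasurePreserving.ae hfg
  filter_upwards [hre, him, h2, h3, h4] with x hx1 hx2 hx3 hx4 hx5 B hB
  filter_upwards [hx1 B hB, hx2 B hB] with a ha1 ha2
  have h8 := ha1.add (ha2.const_mul Complex.I)
  rw [mul_zero, add_zero] at h8
  refine h8.congr fun N => ?_
  rw [← mul_assoc, mul_comm Complex.I, mul_assoc, ← mul_add, mul_sum, ← sum_add_distrib]
  congr 1
  refine sum_congr rfl fun n _ => ?_
  rw [hx3, hx4, hx5]
  have e := Complex.re_add_im (g (S^[⌊a * p n⌋₊] x))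
  conv_rhs => rw [← e]
  push_cast
  ring

/-- weights which depend measurably on the point -/
theorem bty_weights {X : Type u} [MeasurableSpace X] {μ : Measure X} [IsProbabilityMeasure μ] {p : ℕ → ℝ}
    (hp : Good p) {S : X → X} (hS : MeasurePreserving S μ μ) {h : X → ℂ} (hh : AEStronglyMeasurable h μ)
    (hhb : ∃ C : ℝ, ∀ᵐ x ∂μ, ‖h x‖ ≤ C) {W : ℕ → X → ℂ} (hW : ∀ n, AEStronglyMeasurable (W n) μ)
    (hWb : ∃ C : ℝ, ∀ n, ∀ᵐ x ∂μ, ‖W n x‖ ≤ C) :
    ∀ᵐ a : ℝ, 0 < a → ∀ᵐ x ∂μ,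
      Tendsto (fun N : ℕ => (1 / (N : ℂ)) * ∑ n ∈ Icc 1 N, W n x *
        (h (S^[⌊a * p n⌋₊] x) - (μ[h | MeasurableSpace.invariants S]) x)) atTop (nhds 0) := by
  obtain ⟨C0, hC0⟩ := hWb
  obtain ⟨D, hD⟩ : ∃ D : ℝ, D = |C0| + 1 := ⟨_, rfl⟩
  have hD0 : 0 < D := by rw [hD]; positivity
  have hC0D : C0 ≤ D := by rw [hD]; linarith [le_abs_self C0]
  -- versions
  obtain ⟨g, hgm, ⟨C, hC⟩, hfg⟩ := exists_version hh hhb
  set W' : ℕ → X → ℂ := fun n x => if ‖(hW n).mk (W n) x‖ ≤ D then (hW n).mk (W n) x else 0 with hW'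
  have hWm : ∀ n, Measurable (W' n) := fun n =>
    Measurable.ite (measurableSet_le (hW n).stronglyMeasurable_mk.measurable.norm measurable_const)
      (hW n).stronglyMeasurable_mk.measurable measurable_const
  have hWD : ∀ n x, ‖W' n x‖ ≤ D := by
    intro n x
    simp only [hW']
    split_ifs with h1
    · exact h1
    · rw [norm_zero]; exact hD0.le
  have hWeq : ∀ᵐ x ∂μ, ∀ n, W n x = W' n x := by
    rw [ae_all_iff]
    intro n
    filter_upwards [hC0 n, (hW n).ae_eq_mk] with x h1 h2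
    simp only [hW']
    rw [← h2, if_pos (h1.trans hC0D)]
  set E : X → ℂ := μ[g | MeasurableSpace.invariants S] with hE
  have hEm : Measurable E := (stronglyMeasurable_condExp.mono (MeasurableSpace.invariants_le S)).measurable
  have hEeq : ∀ᵐ x ∂μ, (μ[h | MeasurableSpace.invariants S]) x = E x := condExp_congr_ae hfg
  have hSeq : ∀ᵐ x ∂μ, ∀ k : ℕ, h (S^[k] x) = g (S^[k] x) := by
    rw [ae_all_iff]
    intro k
    exact (hS.iterate k).quasiMeasurePreserving.ae hfg
  set d : ℕ → ℝ × X → ℂ := fun N q => (1 / (N : ℂ)) * ∑ n ∈ Icc 1 N, W' n q.2 *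
    (g (S^[⌊q.1 * p n⌋₊] q.2) - E q.2) with hd
  have hgS : ∀ n, Measurable fun q : ℝ × X => g (S^[⌊q.1 * p n⌋₊] q.2) := by
    intro n
    have h1 : Measurable fun q : ℕ × X => g (S^[q.1] q.2) :=
      measurable_from_prod_countable_right fun k => hgm.comp (hS.iterate k).measurable
    exact h1.comp ((Nat.measurable_floor.comp (measurable_fst.mul_const _)).prodMk measurable_snd)
  have hdm : ∀ N, Measurable (d N) := by
    intro N
    refine measurable_const.mul (Finset.measurable_sum _ fun n _ => ?_)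
    exact ((hWm n).comp measurable_snd).mul ((hgS n).sub (hEm.comp measurable_snd))
  have hSm : MeasurableSet {q : ℝ × X | Tendsto (fun N => d N q) atTop (nhds 0)} :=
    measurableSet_tendsto (nhds (0 : ℂ)) hdm
  have h1 : ∀ᵐ x ∂μ, ∀ᵐ a : ℝ ∂(volume.restrict (Set.Ioi (0 : ℝ))),
      (a, x) ∈ {q : ℝ × X | Tendsto (fun N => d N q) atTop (nhds 0)} := by
    filter_upwards [bty_cx hp hS (h := g) hgm.aestronglyMeasurable ⟨C, ae_of_all _ hC⟩] with x hx
    have h2 := hx (fun n => (1 / (D : ℂ)) * W' n x) (fun n => by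
      rw [norm_mul, norm_div, norm_one, Complex.norm_real, Real.norm_eq_abs, abs_of_pos hD0, one_div,
        inv_mul_le_iff₀ hD0, mul_one]
      exact hWD n x)
    filter_upwards [h2] with a ha
    have h3 := ha.const_mul (D : ℂ)
    rw [mul_zero] at h3
    have hDc : (D : ℂ) ≠ 0 := by exact_mod_cast hD0.ne'
    refine h3.congr fun N => ?_
    simp only [hd, hE]
    rw [Finset.mul_sum, Finset.mul_sum, Finset.mul_sum]
    refine sum_congr rfl fun n _ => ?_
    field_simp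
  have h3 := (Measure.ae_ae_comm (μ := volume.restrict (Set.Ioi (0 : ℝ))) (ν := μ)
    (p := fun a x => (a, x) ∈ {q : ℝ × X | Tendsto (fun N => d N q) atTop (nhds 0)}) hSm).2 h1
  rw [ae_restrict_iff' measurableSet_Ioi] at h3
  filter_upwards [h3] with a ha ha0
  filter_upwards [ha ha0, hWeq, hEeq, hSeq] with x hx h4 h5 h6
  have h7 : Tendsto (fun N => d N (a, x)) atTop (nhds 0) := hx
  refine h7.congr fun N => ?_
  simp only [hd, h4, h5, h6]

end Pool.Agent.R497.Er
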