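import Pool.Agent.R497.Er.Susp

set_option autoImplicit false

/-! Cubic averages along the suspension flow. -/

namespace Pool.Agent.R497.Er

open MeasureTheory Filter Finset

universe u

/-- the integrand -/
noncomputable def G {X : Type u} [MeasurableSpace X] (T : X ≃ᵐ X) (f g h : X → ℂ) (s : ℝ) (x : X) (v : ℝ) : ℂ :=
  (if Int.fract (sus T v (s, x)).1 ∈ Set.Ico (3 / 8 : ℝ) (1 / 2) then f (sus T v (s, x)).2 else 0) *
    g (sus T (2 * v) (s, x)).2 * h (sus T (3 * v) (s, x)).2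

lemma G_eq {X : Type u} [MeasurableSpace X] (T : X ≃ᵐ X) (f g h : X → ℂ) {s : ℝ} (hs1 : 3 / 8 ≤ s) (hs2 : s < 1 / 2)
    (x : X) (k : ℕ) {v : ℝ} (hv1 : (k : ℝ) + 1 / 2 < v) (hv2 : v ≤ (k : ℝ) + 3 / 2) :
    G T f g h s x v = (Set.Ico ((k : ℝ) + 11 / 8 - s) ((k : ℝ) + 3 / 2 - s)).indicator
      (fun _ => f (T^[k + 1] x) * g (T^[2 * (k + 1)] x) * h (T^[3 * (k + 1)] x)) v := by
  have hfs : Int.fract s = s := Int.fract_eq_self.2 ⟨by linarith, by linarith⟩
  have hfls : ⌊s⌋ = 0 := Int.floor_eq_zero_iff.2 ⟨by linarith, by linarith⟩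
  unfold G sus
  simp only [hfs, hfls, Int.cast_zero, zero_add, Int.fract_fract]
  by_cases hv : v ∈ Set.Ico ((k : ℝ) + 11 / 8 - s) ((k : ℝ) + 3 / 2 - s)
  · obtain ⟨h1, h2⟩ := hv
    rw [Set.indicator_of_mem (show v ∈ Set.Ico ((k : ℝ) + 11 / 8 - s) ((k : ℝ) + 3 / 2 - s) from ⟨h1, h2⟩)]
    have f1 : ⌊s + v⌋ = (((k + 1 : ℕ)) : ℤ) := by
      rw [Int.floor_eq_iff]
      push_cast
      constructor <;> linarith
    have f2 : ⌊s + 2 * v⌋ = (((2 * (k + 1) : ℕ)) : ℤ) := by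
      rw [Int.floor_eq_iff]
      push_cast
      constructor <;> linarith
    have f3 : ⌊s + 3 * v⌋ = (((3 * (k + 1) : ℕ)) : ℤ) := by
      rw [Int.floor_eq_iff]
      push_cast
      constructor <;> linarith
    have hin : Int.fract (s + v) ∈ Set.Ico (3 / 8 : ℝ) (1 / 2) := by
      unfold Int.fract
      rw [f1]
      push_cast
      constructor <;> linarith
    rw [if_pos hin, f1, f2, f3, zp_natCast, zp_natCast, zp_natCast]
  · rw [Set.indicator_of_notMem hv]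
    have hnin : ¬ Int.fract (s + v) ∈ Set.Ico (3 / 8 : ℝ) (1 / 2) := by
      rintro ⟨h3, h4⟩
      apply hv
      rcases lt_or_ge (s + v) ((k : ℝ) + 1) with h5 | h5
      · exfalso
        have f1 : ⌊s + v⌋ = ((k : ℕ) : ℤ) := by
          rw [Int.floor_eq_iff]
          push_cast
          constructor <;> linarith
        unfold Int.fract at h3 h4
        rw [f1] at h3 h4
        push_cast at h3 h4
        linarith
      · have f1 : ⌊s + v⌋ = (((k + 1 : ℕ)) : ℤ) := by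
          rw [Int.floor_eq_iff]
          push_cast
          constructor <;> linarith
        unfold Int.fract at h3 h4
        rw [f1] at h3 h4
        push_cast at h3 h4
        constructor <;> linarith
    rw [if_neg hnin, zero_mul, zero_mul]

lemma G_int {X : Type u} [MeasurableSpace X] (T : X ≃ᵐ X) (f g h : X → ℂ) {s : ℝ} (hs1 : 3 / 8 ≤ s) (hs2 : s < 1 / 2)
    (x : X) (k : ℕ) : IntervalIntegrable (G T f g h s x) volume ((k : ℝ) + 1 / 2) ((k : ℝ) + 3 / 2) ∧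
    ∫ v in ((k : ℝ) + 1 / 2)..((k : ℝ) + 3 / 2), G T f g h s x v =
      (1 / 8) * (f (T^[k + 1] x) * g (T^[2 * (k + 1)] x) * h (T^[3 * (k + 1)] x)) := by
  have hle : (k : ℝ) + 1 / 2 ≤ (k : ℝ) + 3 / 2 := by linarith
  have hEq : Set.EqOn (G T f g h s x) ((Set.Ico ((k : ℝ) + 11 / 8 - s) ((k : ℝ) + 3 / 2 - s)).indicator
      (fun _ => f (T^[k + 1] x) * g (T^[2 * (k + 1)] x) * h (T^[3 * (k + 1)] x)))
      (Set.Ioc ((k : ℝ) + 1 / 2) ((k : ℝ) + 3 / 2)) := fun v hv => G_eq T f g h hs1 hs2 x k hv.1 hv.2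
  have hsub : Set.Ico ((k : ℝ) + 11 / 8 - s) ((k : ℝ) + 3 / 2 - s) ⊆ Set.Ioc ((k : ℝ) + 1 / 2) ((k : ℝ) + 3 / 2) := by
    rintro v ⟨h1, h2⟩
    exact ⟨by linarith, by linarith⟩
  have hint : Integrable ((Set.Ico ((k : ℝ) + 11 / 8 - s) ((k : ℝ) + 3 / 2 - s)).indicator
      (fun _ : ℝ => f (T^[k + 1] x) * g (T^[2 * (k + 1)] x) * h (T^[3 * (k + 1)] x))) volume := by
    refine (integrable_indicator_iff measurableSet_Ico).2 ?_
    exact integrableOn_const (by rw [Real.volume_Ico]; exact ENNReal.ofReal_ne_top)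
  refine ⟨?_, ?_⟩
  · rw [intervalIntegrable_iff_integrableOn_Ioc_of_le hle]
    exact (hint.integrableOn).congr_fun (fun v hv => (hEq hv).symm) measurableSet_Ioc
  · rw [intervalIntegral.integral_of_le hle, setIntegral_congr_fun measurableSet_Ioc hEq,
      setIntegral_indicator measurableSet_Ico, Set.inter_eq_self_of_subset_right hsub, setIntegral_const]
    have e1 : (volume : Measure ℝ).real (Set.Ico ((k : ℝ) + 11 / 8 - s) ((k : ℝ) + 3 / 2 - s)) = 1 / 8 := by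
      rw [Real.volume_real_Ico_of_le (by linarith)]
      ring
    rw [e1, Complex.real_smul]
    push_cast
    ring

/-- convergence of the continuous averages along the suspension flow gives convergence of the cubic averages -/
lemma cub_of_cont {X : Type u} [MeasurableSpace X] (T : X ≃ᵐ X) (f g h : X → ℂ) {s : ℝ} (hs1 : 3 / 8 ≤ s)
    (hs2 : s < 1 / 2) (x : X) (L : ℂ) (hi : IntervalIntegrable (G T f g h s x) volume 0 (1 / 2))
    (hL : Tendsto (fun V : ℝ => (1 / (V : ℂ)) * ∫ v in (0 : ℝ)..V, G T f g h s x v) atTop (nhds L)) :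
    Tendsto (fun N : ℕ => (1 / (N : ℂ)) * ∑ n ∈ Icc 1 N, f (T^[n] x) * g (T^[2 * n] x) * h (T^[3 * n] x)) atTop
      (nhds (8 * L)) := by
  obtain ⟨c0, hc0⟩ : ∃ c0 : ℂ, c0 = ∫ v in (0 : ℝ)..(1 / 2), G T f g h s x v := ⟨_, rfl⟩
  have hsum : ∀ N : ℕ, ∫ v in (0 : ℝ)..((N : ℝ) + 1 / 2), G T f g h s x v = c0 + (1 / 8) *
      ∑ n ∈ Icc 1 N, f (T^[n] x) * g (T^[2 * n] x) * h (T^[3 * n] x) ∧
      IntervalIntegrable (G T f g h s x) volume 0 ((N : ℝ) + 1 / 2) := by
    intro N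
    induction N with
    | zero =>
      simp only [Nat.cast_zero, zero_add]
      refine ⟨?_, hi⟩
      rw [hc0]
      simp
    | succ N ih =>
      obtain ⟨ih1, ih2⟩ := ih
      obtain ⟨h1, h2⟩ := G_int T f g h hs1 hs2 x N
      have e : (((N + 1 : ℕ) : ℝ)) + 1 / 2 = (N : ℝ) + 3 / 2 := by push_cast; ring
      rw [e]
      refine ⟨?_, ih2.trans h1⟩
      rw [← intervalIntegral.integral_add_adjacent_intervals ih2 h1, ih1, h2, Finset.sum_Icc_succ_top (by omega)]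
      ring
  have hV : Tendsto (fun N : ℕ => (N : ℝ) + 1 / 2) atTop atTop :=
    tendsto_atTop_add_const_right _ _ tendsto_natCast_atTop_atTop
  have h1 := hL.comp hV
  have h2 : Tendsto (fun N : ℕ => (8 : ℂ) * (((N : ℂ) + 1 / 2) / N)) atTop (nhds 8) := by
    have h3 : Tendsto (fun N : ℕ => (8 : ℂ) * (1 + (1 / 2) * (1 / (N : ℂ)))) atTop (nhds (8 * (1 + (1 / 2) * 0))) := by
      refine Tendsto.const_mul _ (Tendsto.const_add _ (Tendsto.const_mul _ ?_))
      exact tendsto_one_div_atTop_nhds_zero_nat (𝕜 := ℂ)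
    rw [mul_zero, add_zero, mul_one] at h3
    refine h3.congr' ?_
    filter_upwards [eventually_gt_atTop 0] with N hN
    have hN' : (N : ℂ) ≠ 0 := by exact_mod_cast hN.ne'
    field_simp
  have h4 : Tendsto (fun N : ℕ => 8 * c0 * (1 / (N : ℂ))) atTop (nhds 0) := by
    have := (tendsto_one_div_atTop_nhds_zero_nat (𝕜 := ℂ)).const_mul (8 * c0)
    rwa [mul_zero] at this
  have h5 := (h2.mul h1).sub h4
  rw [sub_zero] at h5
  refine h5.congr' ?_
  filter_upwards [eventually_gt_atTop 0] with N hN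
  have hN' : (N : ℂ) ≠ 0 := by exact_mod_cast hN.ne'
  have hN2 : ((N : ℂ) + 1 / 2) ≠ 0 := by
    intro h0
    have h6 : (((N : ℝ) + 1 / 2 : ℝ) : ℂ) = 0 := by push_cast; exact h0
    have h7 : ((N : ℝ) + 1 / 2) = 0 := by exact_mod_cast h6
    have h8 : (0 : ℝ) < (N : ℝ) + 1 / 2 := by positivity
    linarith
  simp only [Function.comp_apply]
  rw [(hsum N).1]
  have h9 : (((N : ℝ) + 1 / 2 : ℝ) : ℂ) = (N : ℂ) + 1 / 2 := by push_cast; rfl
  rw [h9]
  generalize (∑ n ∈ Icc 1 N, f (T^[n] x) * g (T^[2 * n] x) * h (T^[3 * n] x)) = Q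
  generalize (N : ℂ) + 1 / 2 = W at hN2 ⊢
  field_simp
  ring

end Pool.Agent.R497.Er
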