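import Pool.Agent.R497.Er.Prog2

set_option autoImplicit false

/-! Unrestricted box averages along one linear form with positive integer coefficients, at almost all times. -/

namespace Pool.Agent.R497.Er

open MeasureTheory Filter Finset Pool.Agent.Y957.MC

universe u

lemma rs_eq (q r : ℕ) (b : ℕ → ℂ) (N : ℕ) :
    rs q r b N = ∑ n ∈ Icc 1 N, (if n % q = r % q then (1 : ℂ) else 0) * b n := by
  unfold rs
  refine sum_congr rfl fun n _ => ?_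
  split_ifs <;> simp

/-- boxes and continuous averages -/
theorem one_form {X : Type u} [MeasurableSpace X] {μ : Measure X} [IsProbabilityMeasure μ] {m : ℕ}
    {τ : Fin m → ℝ → X → X} (hτ : ∀ j, IsFlow μ (τ j)) {f : Fin m → X → ℂ}
    (hf : ∀ j, AEStronglyMeasurable (f j) μ) (hfb : ∀ j, ∃ C : ℝ, ∀ᵐ x ∂μ, ‖f j x‖ ≤ C) :
    ∀ᵐ a : ℝ, 0 < a → ∀ᵐ x ∂μ, ∀ k : ℕ, 0 < k → ∀ c : Fin k → ℕ, (∀ i, 0 < c i) → ∀ L : ℂ,
      (Tendsto (fun M => bavg M (fun p => ∏ j, f j (τ j (a * (nlin c p : ℝ)) x))) atTop (nhds L) ↔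
        Tendsto (fun V : ℝ => (1 / (V : ℂ)) * ∫ v in (0 : ℝ)..V, ∏ j, f j (τ j v x)) atTop (nhds L)) := by
  have h1 : ∀ᵐ a : ℝ, ∀ q r : ℕ, 0 < a → ∀ᵐ x ∂μ,
      Tendsto (fun N : ℕ => (1 / (N : ℂ)) * ∑ n ∈ Icc 1 N, (if n % (q + 1) = r % (q + 1) then (1 : ℂ) else 0) *
        ∏ j, f j (τ j (a * n) x) - 1 / ((q + 1 : ℕ) : ℂ) * ((1 / ((a * N : ℝ) : ℂ)) *
          ∫ v in (0 : ℝ)..(a * N), ∏ j, f j (τ j v x))) atTop (nhds 0) := by
    rw [ae_all_iff]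
    intro q
    rw [ae_all_iff]
    intro r
    exact mul_Linf (psav_class q.succ_pos r) ⟨1, fun n => by split_ifs <;> simp⟩ hτ hf hfb
  filter_upwards [h1] with a ha ha0
  have h2 : ∀ᵐ x ∂μ, ∀ q r : ℕ,
      Tendsto (fun N : ℕ => (1 / (N : ℂ)) * ∑ n ∈ Icc 1 N, (if n % (q + 1) = r % (q + 1) then (1 : ℂ) else 0) *
        ∏ j, f j (τ j (a * n) x) - 1 / ((q + 1 : ℕ) : ℂ) * ((1 / ((a * N : ℝ) : ℂ)) *
          ∫ v in (0 : ℝ)..(a * N), ∏ j, f j (τ j v x))) atTop (nhds 0) := by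
    rw [ae_all_iff]
    intro q
    rw [ae_all_iff]
    intro r
    exact ha q r ha0
  filter_upwards [h2, orb_good hτ hf hfb] with x hx hx2 k hk c hc L
  obtain ⟨⟨C, hC0, hC⟩, hi⟩ := hx2
  obtain ⟨b, hb⟩ : ∃ b : ℕ → ℂ, b = fun n : ℕ => ∏ j, f j (τ j (a * n) x) := ⟨_, rfl⟩
  obtain ⟨J, hJ⟩ : ∃ J : ℕ → ℂ, J = fun N : ℕ => (1 / (a : ℂ)) * ∫ v in (0 : ℝ)..(a * N), ∏ j, f j (τ j v x) := ⟨_, rfl⟩
  have hac : (a : ℂ) ≠ 0 := by exact_mod_cast ha0.ne'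
  have hx3 : ∀ q r : ℕ, 0 < q → Tendsto (fun N : ℕ => (1 / (N : ℂ)) * rs q r b N - (1 / (q : ℂ)) *
      ((1 / (N : ℂ)) * J N)) atTop (nhds 0) := by
    intro q r hq
    obtain ⟨q, rfl⟩ : ∃ q', q = q' + 1 := ⟨q - 1, by omega⟩
    refine (hx q r).congr fun N => ?_
    rw [rs_eq, hb, hJ]
    simp only
    congr 2
    push_cast
    by_cases hN : (N : ℂ) = 0
    · simp [hN]
    · field_simp
  have hJN : ∀ N : ℕ, (1 / (N : ℂ)) * J N = (1 / ((a * N : ℝ) : ℂ)) *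
      ∫ v in (0 : ℝ)..(a * N), ∏ j, f j (τ j v x) := by
    intro N
    rw [hJ]
    push_cast
    by_cases hN : (N : ℂ) = 0
    · simp [hN]
    · field_simp
  have hbm : ∀ M : Fin k → ℕ, bavg M (fun p => ∏ j, f j (τ j (a * (nlin c p : ℝ)) x)) =
      bavg M (fun p => b (nlin c p)) := by
    intro M
    rw [hb]
  simp only [hbm]
  constructor
  · intro h
    have hLip : ∀ N s : ℕ, ‖J (N + s) - J N‖ ≤ C * s := by
      intro N s
      have e : J (N + s) - J N = (1 / (a : ℂ)) * ∫ v in (a * (N : ℝ))..(a * ((N + s : ℕ) : ℝ)), ∏ j, f j (τ j v x) := by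
        rw [hJ]
        simp only
        rw [← mul_sub, intervalIntegral.integral_interval_sub_left (hi _ _) (hi _ _)]
      rw [e, norm_mul, norm_div, norm_one, Complex.norm_real, Real.norm_eq_abs, abs_of_pos ha0, one_div,
        inv_mul_le_iff₀ ha0]
      have h3 := intervalIntegral.norm_integral_le_of_norm_le_const_ae (a := a * (N : ℝ)) (b := a * ((N + s : ℕ) : ℝ))
        (f := fun v => ∏ j, f j (τ j v x)) (C := C) (by filter_upwards [hC] with v hv _ using hv)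
      refine h3.trans (le_of_eq ?_)
      push_cast
      rw [show a * ((N : ℝ) + s) - a * N = a * s from by ring, abs_of_nonneg (by positivity)]
      ring
    have h3 := cont_of_box hLip hk hc (fun r => hx3 _ r (hc _)) h
    have hc0 : 0 < c ⟨0, hk⟩ := hc _
    have ha' : 0 < a * (c ⟨0, hk⟩ : ℝ) := by positivity
    refine cont_of_disc ha' hC0 hC hi (h3.congr fun N => ?_)
    rw [hJN]
    have e1 : a * ((c ⟨0, hk⟩ * N : ℕ) : ℝ) = a * (c ⟨0, hk⟩ : ℝ) * N := by push_cast; ring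
    rw [e1]
  · intro h
    refine box_of_prog hk hc fun i r => ?_
    have hlimN : Tendsto (fun N : ℕ => a * (N : ℝ)) atTop atTop :=
      tendsto_natCast_atTop_atTop.const_mul_atTop ha0
    have h3 : Tendsto (fun N : ℕ => (1 / (c i : ℂ)) * ((1 / (N : ℂ)) * J N)) atTop (nhds (1 / (c i : ℂ) * L)) := by
      refine Tendsto.const_mul _ ((h.comp hlimN).congr fun N => ?_)
      rw [hJN]
      rfl
    have h4 := (hx3 (c i) r (hc i)).add h3
    rw [zero_add, show 1 / (c i : ℂ) * L = L / c i from by ring] at h4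
    exact h4.congr fun N => by ring

/-- rational coefficients -/
theorem one_form_rat {X : Type u} [MeasurableSpace X] {μ : Measure X} [IsProbabilityMeasure μ] {m : ℕ}
    {τ : Fin m → ℝ → X → X} (hτ : ∀ j, IsFlow μ (τ j)) {f : Fin m → X → ℂ}
    (hf : ∀ j, AEStronglyMeasurable (f j) μ) (hfb : ∀ j, ∃ C : ℝ, ∀ᵐ x ∂μ, ‖f j x‖ ≤ C) :
    ∀ᵐ a : ℝ, 0 < a → ∀ᵐ x ∂μ, ∀ k : ℕ, 0 < k → ∀ c : Fin k → ℚ, (∀ i, 0 < c i) → ∀ L : ℂ,
      (Tendsto (fun M => bavg M (fun p => ∏ j, f j (τ j (a * ∑ i, (c i : ℝ) * (p i : ℝ)) x))) atTop (nhds L) ↔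
        Tendsto (fun V : ℝ => (1 / (V : ℂ)) * ∫ v in (0 : ℝ)..V, ∏ j, f j (τ j v x)) atTop (nhds L)) := by
  have h1 : ∀ᵐ a : ℝ, ∀ q : ℕ, 0 < (a * (1 / ((q : ℝ) + 1))) → ∀ᵐ x ∂μ, ∀ k : ℕ, 0 < k → ∀ c : Fin k → ℕ,
      (∀ i, 0 < c i) → ∀ L : ℂ,
      (Tendsto (fun M => bavg M (fun p => ∏ j, f j (τ j ((a * (1 / ((q : ℝ) + 1))) * (nlin c p : ℝ)) x))) atTop
        (nhds L) ↔
        Tendsto (fun V : ℝ => (1 / (V : ℂ)) * ∫ v in (0 : ℝ)..V, ∏ j, f j (τ j v x)) atTop (nhds L)) := by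
    rw [ae_all_iff]
    intro q
    have hq : (1 / ((q : ℝ) + 1)) ≠ 0 := by positivity
    have h2 := one_form (μ := μ) hτ hf hfb
    rw [ae_iff] at h2 ⊢
    have h3 := Real.volume_preimage_mul_right hq
      {a : ℝ | ¬ (0 < a → ∀ᵐ x ∂μ, ∀ k : ℕ, 0 < k → ∀ c : Fin k → ℕ, (∀ i, 0 < c i) → ∀ L : ℂ,
      (Tendsto (fun M => bavg M (fun p => ∏ j, f j (τ j (a * (nlin c p : ℝ)) x))) atTop (nhds L) ↔
        Tendsto (fun V : ℝ => (1 / (V : ℂ)) * ∫ v in (0 : ℝ)..V, ∏ j, f j (τ j v x)) atTop (nhds L)))}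
    rw [h2, mul_zero] at h3
    exact h3
  filter_upwards [h1] with a ha ha0
  have h2 : ∀ᵐ x ∂μ, ∀ q : ℕ, ∀ k : ℕ, 0 < k → ∀ c : Fin k → ℕ,
      (∀ i, 0 < c i) → ∀ L : ℂ,
      (Tendsto (fun M => bavg M (fun p => ∏ j, f j (τ j ((a * (1 / ((q : ℝ) + 1))) * (nlin c p : ℝ)) x))) atTop
        (nhds L) ↔
        Tendsto (fun V : ℝ => (1 / (V : ℂ)) * ∫ v in (0 : ℝ)..V, ∏ j, f j (τ j v x)) atTop (nhds L)) := by
    rw [ae_all_iff]
    intro q
    exact ha q (by positivity)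
  filter_upwards [h2] with x hx k hk c hc L
  -- common denominator
  obtain ⟨q, hq⟩ : ∃ q : ℕ, q + 1 = ∏ i, (c i).den :=
    ⟨∏ i, (c i).den - 1, by
      have : 0 < ∏ i, (c i).den := Finset.prod_pos fun i _ => (c i).den_pos
      omega⟩
  have hnum : ∀ i, ∃ p : ℕ, 0 < p ∧ (p : ℚ) = c i * (q + 1 : ℕ) := by
    intro i
    refine ⟨(c i).num.toNat * ∏ l ∈ univ.erase i, (c l).den, ?_, ?_⟩
    · refine Nat.mul_pos ?_ (Finset.prod_pos fun l _ => (c l).den_pos)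
      have := Rat.num_pos.2 (hc i)
      omega
    · rw [hq, ← mul_prod_erase univ (fun l => (c l).den) (mem_univ i)]
      push_cast
      have h3 : (((c i).num.toNat : ℕ) : ℚ) = (c i).num := by
        have h4 : (((c i).num.toNat : ℕ) : ℤ) = (c i).num := Int.toNat_of_nonneg (Rat.num_pos.2 (hc i)).le
        exact_mod_cast h4
      rw [h3, ← mul_assoc, Rat.mul_den_eq_num]
  choose p hp0 hp using hnum
  have h3 := hx q k hk p hp0 L
  rw [← h3]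
  have e : ∀ M : Fin k → ℕ, bavg M (fun p => ∏ j, f j (τ j (a * ∑ i, (c i : ℝ) * (p i : ℝ)) x)) =
      bavg M (fun p' => ∏ j, f j (τ j ((a * (1 / ((q : ℝ) + 1))) * (nlin p p' : ℝ)) x)) := by
    intro M
    congr 1
    funext p'
    have e1 : a * ∑ i, (c i : ℝ) * (p' i : ℝ) = (a * (1 / ((q : ℝ) + 1))) * (nlin p p' : ℝ) := by
      unfold nlin
      push_cast
      rw [mul_assoc, mul_sum (univ : Finset (Fin k)) _ (1 / ((q : ℝ) + 1))]
      congr 1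
      refine sum_congr rfl fun i _ => ?_
      have h4 : (p i : ℝ) = (c i : ℝ) * ((q : ℝ) + 1) := by
        have := hp i
        exact_mod_cast this
      rw [h4]
      have hq0 : ((q : ℝ) + 1) ≠ 0 := by positivity
      field_simp
    rw [e1]
  simp only [e]

end Pool.Agent.R497.Er
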