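import Pool.Agent.Y957.MC.Box
import Pool.Agent.Y957.MC.Fin4

set_option autoImplicit false

/-! Box averages of a sequence along a positive integer linear form, and averages over residue classes. -/

namespace Pool.Agent.R497.Er

open MeasureTheory Filter Finset Pool.Agent.Y957.MC

/-- partial sums over a residue class -/
noncomputable def rs (q r : ℕ) (b : ℕ → ℂ) (N : ℕ) : ℂ := ∑ n ∈ Icc 1 N, if n % q = r % q then b n else 0

lemma rs_mod (q r : ℕ) (b : ℕ → ℂ) (N : ℕ) : rs q (r % q) b N = rs q r b N := by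
  unfold rs
  simp only [Nat.mod_mod]

lemma rs_add (q r : ℕ) (b : ℕ → ℂ) (N t : ℕ) :
    rs q r b (N + t) = rs q r b N + ∑ j ∈ range t, if (N + 1 + j) % q = r % q then b (N + 1 + j) else 0 := by
  induction t with
  | zero => simp
  | succ t ih =>
    rw [sum_range_succ, ← add_assoc (rs q r b N), ← ih]
    unfold rs
    rw [← add_assoc, sum_Icc_succ_top (by omega)]
    simp only [show N + t + 1 = N + 1 + t from by omega]

lemma sum_prog (c s : ℕ) (hc : 0 < c) (b : ℕ → ℂ) (M : ℕ) :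
    ∑ m ∈ Icc 1 M, b (c * m + s) = rs c s b (c * M + s) - rs c s b s := by
  induction M with
  | zero => simp
  | succ M ih =>
    rw [sum_Icc_succ_top (by omega), ih, show c * (M + 1) + s = (c * M + s) + c from by ring, rs_add c s b (c * M + s) c]
    have h1 : ∑ j ∈ range c, (if (c * M + s + 1 + j) % c = s % c then b (c * M + s + 1 + j) else 0) =
        b (c * M + s + c) := by
      rw [sum_eq_single (c - 1)]
      · have e1 : c * M + s + 1 + (c - 1) = c * M + s + c := by omega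
        rw [e1, if_pos]
        rw [show c * M + s + c = s + c * (M + 1) from by ring, Nat.add_mul_mod_self_left]
      · intro j hj hne
        rw [mem_range] at hj
        rw [if_neg]
        intro h
        have h2 : (c * M + s + 1 + j) ≡ s [MOD c] := h
        have h3 : (c * M + s + 1 + j) = (s + (1 + j)) + c * M := by ring
        rw [h3] at h2
        have h4 : (s + (1 + j)) ≡ s + 0 [MOD c] := by
          unfold Nat.ModEq at h2 ⊢
          rwa [Nat.add_mul_mod_self_left] at h2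
        have h5 : (1 + j) ≡ 0 [MOD c] := Nat.ModEq.add_left_cancel' s h4
        have h6 := (Nat.modEq_zero_iff_dvd).1 h5
        have h7 := Nat.le_of_dvd (by omega) h6
        omega
      · intro h
        exact absurd (mem_range.2 (by omega)) h
    rw [h1]
    ring

/-- a bound for all `N` -/
lemma lin_bound {u : ℕ → ℂ} {l : ℂ} (h : Tendsto (fun N : ℕ => (1 / (N : ℂ)) * u N) atTop (nhds l)) {δ : ℝ} (hδ : 0 < δ) :
    ∃ D : ℝ, 0 ≤ D ∧ ∀ N : ℕ, ‖u N - l * N‖ ≤ δ * N + D := by
  rw [Metric.tendsto_atTop] at h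
  obtain ⟨N0, hN0⟩ := h δ hδ
  refine ⟨∑ n ∈ range (N0 + 1), ‖u n - l * n‖, sum_nonneg fun _ _ => norm_nonneg _, fun N => ?_⟩
  by_cases hN : N ≤ N0
  · have h1 : ‖u N - l * N‖ ≤ ∑ n ∈ range (N0 + 1), ‖u n - l * n‖ :=
      single_le_sum (f := fun n : ℕ => ‖u n - l * n‖) (fun _ _ => norm_nonneg _) (mem_range.2 (by omega))
    have h2 : 0 ≤ δ * (N : ℝ) := by positivity
    linarith
  · have h1 := hN0 N (by omega)
    have hNp : 0 < N := by omega
    have hNc : (N : ℂ) ≠ 0 := by exact_mod_cast hNp.ne'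
    rw [dist_eq_norm] at h1
    have e : u N - l * N = (N : ℂ) * ((1 / (N : ℂ)) * u N - l) := by field_simp
    rw [e, norm_mul, Complex.norm_natCast]
    have h2 : (N : ℝ) * ‖(1 / (N : ℂ)) * u N - l‖ ≤ N * δ := by
      refine mul_le_mul_of_nonneg_left h1.le (by positivity)
    have h3 : 0 ≤ ∑ n ∈ range (N0 + 1), ‖u n - l * n‖ := sum_nonneg fun _ _ => norm_nonneg _
    linarith

/-- averages over progressions, uniformly in the starting point -/
lemma prog_unif {b : ℕ → ℂ} {L : ℂ} {c : ℕ} (hc : 0 < c)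
    (h : ∀ r : ℕ, Tendsto (fun N : ℕ => (1 / (N : ℂ)) * rs c r b N) atTop (nhds (L / c))) {ε C : ℝ} (hε : 0 < ε)
    (hC : 0 ≤ C) : ∃ N0 : ℕ, ∀ M : ℕ, N0 ≤ M → ∀ s : ℕ, (s : ℝ) ≤ C * M →
      ‖(1 / (M : ℂ)) * ∑ m ∈ Icc 1 M, b (c * m + s) - L‖ ≤ ε := by
  have hcR : (0 : ℝ) < c := Nat.cast_pos.2 hc
  obtain ⟨δ, hδ⟩ : ∃ δ : ℝ, δ = ε / (2 * (c + 2 * C)) := ⟨_, rfl⟩
  have hδ0 : 0 < δ := by rw [hδ]; positivity
  choose D hD0 hD using fun r => lin_bound (h r) hδ0
  obtain ⟨D', hD'⟩ : ∃ D' : ℝ, D' = ∑ r ∈ range c, D r := ⟨_, rfl⟩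
  have hD'0 : 0 ≤ D' := by rw [hD']; exact sum_nonneg fun r _ => hD0 r
  have hb : ∀ s N : ℕ, ‖rs c s b N - L / c * N‖ ≤ δ * N + D' := by
    intro s N
    have h1 := hD (s % c) N
    rw [rs_mod] at h1
    have h2 : D (s % c) ≤ D' := by
      rw [hD']
      exact single_le_sum (f := D) (fun r _ => hD0 r) (mem_range.2 (Nat.mod_lt _ hc))
    linarith
  obtain ⟨N0, hN0⟩ := exists_nat_gt (4 * D' / ε)
  refine ⟨max N0 1, fun M hM s hs => ?_⟩
  have hM1 : 1 ≤ M := (le_max_right _ _).trans hM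
  have hMR : (0 : ℝ) < M := by exact_mod_cast hM1
  have hMN : (N0 : ℝ) ≤ M := by exact_mod_cast (le_max_left _ _).trans hM
  have hMc : (M : ℂ) ≠ 0 := by exact_mod_cast (show M ≠ 0 by omega)
  have hcc : (c : ℂ) ≠ 0 := by exact_mod_cast hc.ne'
  have e : (1 / (M : ℂ)) * ∑ m ∈ Icc 1 M, b (c * m + s) - L =
      (1 / (M : ℂ)) * ((rs c s b (c * M + s) - L / c * ((c * M + s : ℕ) : ℂ)) -
        (rs c s b s - L / c * (s : ℂ))) := by
    rw [sum_prog c s hc b M]
    push_cast
    field_simp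
    ring
  rw [e, norm_mul, norm_div, norm_one, Complex.norm_natCast, one_div, inv_mul_le_iff₀ hMR]
  have h1 := hb s (c * M + s)
  have h2 := hb s s
  have h3 := norm_sub_le (rs c s b (c * M + s) - L / c * ((c * M + s : ℕ) : ℂ)) (rs c s b s - L / c * (s : ℂ))
  push_cast at h1 h3 ⊢
  have h4 : 4 * D' < ε * M := by
    have : 4 * D' / ε < M := hN0.trans_le hMN
    rw [div_lt_iff₀ hε] at this
    linarith
  have h5 : δ * ((c : ℝ) * M + s) + δ * s ≤ ε / 2 * M := by
    have h6 : δ * (2 * ((c : ℝ) + 2 * C)) = ε := by rw [hδ]; field_simp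
    have h7 : δ * ((c : ℝ) * M + s) + δ * s ≤ δ * ((c + 2 * C) * M) := by
      nlinarith
    calc _ ≤ δ * ((c + 2 * C) * M) := h7
      _ = (δ * (2 * ((c : ℝ) + 2 * C))) * M / 2 := by ring
      _ = _ := by rw [h6]; ring
  linarith

/-- the value of a linear form with positive integer coefficients -/
def nlin {k : ℕ} (c : Fin k → ℕ) (m : Fin k → ℕ) : ℕ := ∑ i, c i * m i

lemma nlin_update {k : ℕ} (c : Fin k → ℕ) (i : Fin k) (m : Fin k → ℕ) (n : ℕ) :
    nlin c (Function.update m i n) = c i * n + ∑ l ∈ univ.erase i, c l * m l := by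
  unfold nlin
  rw [← add_sum_erase univ _ (mem_univ i), Function.update_self]
  congr 1
  refine sum_congr rfl fun l hl => ?_
  rw [Function.update_of_ne (ne_of_mem_erase hl)]

lemma card_split {k : ℕ} (i : Fin k) (M : Fin k → ℕ) : ∏ l, M l = M i * (box (Function.update M i 1)).card := by
  rw [Pool.Agent.Y86.MC.card_box, ← mul_prod_erase univ M (mem_univ i),
    ← mul_prod_erase univ (Function.update M i 1) (mem_univ i), Function.update_self, one_mul]
  congr 1
  refine prod_congr rfl fun l hl => ?_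
  rw [Function.update_of_ne (ne_of_mem_erase hl)]

/-- the average over a box is a mean of averages in one variable -/
lemma bavg_split {k : ℕ} (c : Fin k → ℕ) (i : Fin k) (M : Fin k → ℕ) (b : ℕ → ℂ) :
    bavg M (fun m => b (nlin c m)) = (1 / ((box (Function.update M i 1)).card : ℂ)) *
      ∑ m ∈ box (Function.update M i 1), (1 / (M i : ℂ)) * ∑ n ∈ Icc 1 (M i),
        b (c i * n + ∑ l ∈ univ.erase i, c l * m l) := by
  unfold bavg
  rw [Pool.Agent.Y86.MC.sum_box i, card_split i M, ← mul_sum, ← mul_assoc]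
  push_cast
  congr 1
  · by_cases h1 : (M i : ℂ) = 0
    · simp [h1]
    · by_cases h2 : ((box (Function.update M i 1)).card : ℂ) = 0
      · simp [h2]
      · field_simp
  · refine sum_congr rfl fun m _ => sum_congr rfl fun n _ => ?_
    rw [nlin_update]

/-- a mean of numbers close to `L` -/
lemma mean_close {ι : Type*} (s : Finset ι) (hs : s.Nonempty) (f : ι → ℂ) (L : ℂ) (ε : ℝ)
    (h : ∀ i ∈ s, ‖f i - L‖ ≤ ε) : ‖(1 / (s.card : ℂ)) * ∑ i ∈ s, f i - L‖ ≤ ε := by
  have hc : (s.card : ℂ) ≠ 0 := by exact_mod_cast (card_pos.2 hs).ne'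
  have hcR : (0 : ℝ) < s.card := by exact_mod_cast card_pos.2 hs
  have e : (1 / (s.card : ℂ)) * ∑ i ∈ s, f i - L = (1 / (s.card : ℂ)) * ∑ i ∈ s, (f i - L) := by
    rw [sum_sub_distrib, sum_const, nsmul_eq_mul]
    field_simp
  rw [e, norm_mul, norm_div, norm_one, Complex.norm_natCast, one_div, inv_mul_le_iff₀ hcR]
  refine (norm_sum_le _ _).trans ((sum_le_sum h).trans (le_of_eq ?_))
  rw [sum_const, nsmul_eq_mul]

lemma box_nonempty {k : ℕ} {M : Fin k → ℕ} (h : ∀ l, 1 ≤ M l) : (box M).Nonempty :=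
  ⟨fun _ => 1, Pool.Agent.Y86.MC.mem_box.2 fun l => ⟨le_rfl, h l⟩⟩

lemma tendsto_of_TZ' {k : ℕ} (hk : 0 < k) {H : (Fin k → ℕ) → ℂ} (h : ∀ i, TZ i H) : Tendsto H atTop (nhds 0) := by
  rw [Metric.tendsto_atTop]
  intro ε hε
  choose N hN using fun i => h i (ε / 2) (by positivity)
  have : Nonempty (Fin k) := ⟨⟨0, hk⟩⟩
  refine ⟨fun _ => Finset.univ.sup N, fun M hM => ?_⟩
  obtain ⟨i, -, hi⟩ := Finset.exists_max_image (Finset.univ : Finset (Fin k)) M Finset.univ_nonempty
  have h1 := hN i M (fun l => (Finset.le_sup (f := N) (Finset.mem_univ i)).trans (hM l)) (fun l => hi l (Finset.mem_univ l))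
  rw [dist_zero_right]
  linarith

/-- from residue classes to boxes -/
theorem box_of_prog {b : ℕ → ℂ} {L : ℂ} {k : ℕ} (hk : 0 < k) {c : Fin k → ℕ} (hc : ∀ i, 0 < c i)
    (h : ∀ (i : Fin k) (r : ℕ), Tendsto (fun N : ℕ => (1 / (N : ℂ)) * rs (c i) r b N) atTop (nhds (L / c i))) :
    Tendsto (fun M => bavg M (fun m => b (nlin c m))) atTop (nhds L) := by
  have hH : Tendsto (fun M => bavg M (fun m => b (nlin c m)) - L) atTop (nhds 0) := by
    refine tendsto_of_TZ' hk fun i => ?_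
    intro ε hε
    obtain ⟨N0, hN0⟩ := prog_unif (hc i) (h i) hε (C := ∑ l, (c l : ℝ)) (by positivity)
    refine ⟨max N0 1, fun M hM hMi => ?_⟩
    show ‖bavg M (fun m => b (nlin c m)) - L‖ ≤ ε
    rw [bavg_split c i M b]
    have hM1 : ∀ l, 1 ≤ M l := fun l => (le_max_right _ _).trans (hM l)
    refine mean_close _ (box_nonempty fun l => ?_) _ _ _ fun m hm => ?_
    · by_cases hl : l = i
      · subst hl; rw [Function.update_self]
      · rw [Function.update_of_ne hl]; exact hM1 l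
    · refine hN0 (M i) ((le_max_left _ _).trans (hM i)) _ ?_
      rw [Pool.Agent.Y86.MC.mem_box] at hm
      push_cast
      calc ∑ l ∈ univ.erase i, (c l : ℝ) * m l ≤ ∑ l ∈ univ.erase i, (c l : ℝ) * M i := by
            refine sum_le_sum fun l hl => mul_le_mul_of_nonneg_left ?_ (by positivity)
            have h1 := (hm l).2
            rw [Function.update_of_ne (ne_of_mem_erase hl)] at h1
            exact_mod_cast h1.trans (hMi l)
        _ ≤ ∑ l, (c l : ℝ) * M i := sum_le_sum_of_subset_of_nonneg (erase_subset _ _) fun l _ _ => by positivity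
        _ = _ := by rw [sum_mul]
  have := hH.add_const L
  rw [zero_add] at this
  exact this.congr fun M => by ring

end Pool.Agent.R497.Er
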