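import Pool.Agent.R497.Er.Prog
import Pool.Agent.Y957.MC.Fin7

set_option autoImplicit false

/-! Residue classes as weights, and the converse: from boxes to continuous averages. -/

namespace Pool.Agent.R497.Er

open MeasureTheory Filter Finset Pool.Agent.Y957.MC

universe u

lemma class_iff (q r n : ℕ) : n % q = r % q ↔ (q : ℤ) ∣ (n : ℤ) - r := by
  have h : n % q = r % q ↔ r ≡ n [MOD q] := ⟨fun h => h.symm, fun h => h.symm⟩
  rw [h, Nat.modEq_iff_dvd]

lemma class_trig {q : ℕ} (hq : 0 < q) (r n : ℕ) :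
    ∑ k ∈ range q, (1 / (q : ℂ)) * Complex.exp (-(2 * Real.pi * k * r / q) * Complex.I) *
      Complex.exp (((2 * Real.pi * ((k : ℝ) / q) * n : ℝ) : ℂ) * Complex.I) = if n % q = r % q then 1 else 0 := by
  have hqc : (q : ℂ) ≠ 0 := by exact_mod_cast hq.ne'
  obtain ⟨ζ, hζ⟩ : ∃ ζ : ℂ, ζ = Complex.exp (2 * Real.pi * ((n : ℂ) - r) / q * Complex.I) := ⟨_, rfl⟩
  have h1 : ∀ k ∈ range q, (1 / (q : ℂ)) * Complex.exp (-(2 * Real.pi * k * r / q) * Complex.I) *
      Complex.exp (((2 * Real.pi * ((k : ℝ) / q) * n : ℝ) : ℂ) * Complex.I) = (1 / (q : ℂ)) * ζ ^ k := by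
    intro k _
    rw [mul_assoc, ← Complex.exp_add, hζ, ← Complex.exp_nat_mul]
    congr 2
    push_cast
    ring
  rw [sum_congr rfl h1, ← mul_sum]
  have h2 : ζ ^ q = 1 := by
    rw [hζ, ← Complex.exp_nat_mul, Complex.exp_eq_one_iff]
    refine ⟨(n : ℤ) - r, ?_⟩
    push_cast
    field_simp
  split_ifs with h
  · have h3 : ζ = 1 := by
      rw [class_iff] at h
      obtain ⟨t, ht⟩ := h
      rw [hζ, Complex.exp_eq_one_iff]
      refine ⟨t, ?_⟩
      have h4 : ((n : ℂ) - r) = q * t := by exact_mod_cast ht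
      rw [h4]
      field_simp
    rw [h3]
    simp [hqc]
  · have h3 : ζ ≠ 1 := by
      intro h4
      apply h
      rw [hζ, Complex.exp_eq_one_iff] at h4
      obtain ⟨t, ht⟩ := h4
      rw [class_iff]
      refine ⟨t, ?_⟩
      have hpi : (2 * (Real.pi : ℂ) * Complex.I) ≠ 0 := by
        simp [Real.pi_ne_zero, Complex.I_ne_zero]
      have h5 : ((n : ℂ) - r) / q * (2 * Real.pi * Complex.I) = t * (2 * Real.pi * Complex.I) := by
        rw [← ht]; ring
      have h6 := mul_right_cancel₀ hpi h5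
      rw [div_eq_iff hqc] at h6
      have h7 : ((n : ℂ) - r) = q * t := by rw [h6]; ring
      exact_mod_cast h7
    have h4 : (∑ k ∈ range q, ζ ^ k) * (ζ - 1) = 0 := by
      rw [geom_sum_mul, h2, sub_self]
    rcases mul_eq_zero.1 h4 with h5 | h5
    · rw [h5, mul_zero]
    · exact absurd (sub_eq_zero.1 h5) h3

lemma rs_one_block (q r N : ℕ) (hq : 0 < q) : rs q r (fun _ => 1) (N + q) = rs q r (fun _ => 1) N + 1 := by
  rw [rs_add]
  congr 1
  have h1 : (∑ j ∈ range q, if (N + 1 + j) % q = r % q then (1 : ℂ) else 0) =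
      ((filter (fun x => x % q = r % q) (Ico (N + 1) (N + 1 + q))).card : ℂ) := by
    rw [← Finset.sum_boole, Finset.sum_Ico_eq_sum_range]
    simp only [Nat.add_sub_cancel_left]
  rw [h1]
  have hp : Function.Periodic (fun x => x % q = r % q) q := by
    intro x
    simp
  rw [Nat.filter_Ico_card_eq_of_periodic (N + 1) q (fun x => x % q = r % q) hp, Nat.count_eq_card_filter_range]
  have h2 : filter (fun x => x % q = r % q) (range q) = {r % q} := by
    ext x
    simp only [mem_filter, mem_range, mem_singleton]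
    constructor
    · rintro ⟨h3, h4⟩
      rw [← h4, Nat.mod_eq_of_lt h3]
    · rintro rfl
      exact ⟨Nat.mod_lt _ hq, Nat.mod_mod _ _⟩
  rw [h2]
  simp

lemma rs_one_lim (q r : ℕ) (hq : 0 < q) :
    Tendsto (fun N : ℕ => (1 / (N : ℂ)) * rs q r (fun _ => 1) N) atTop (nhds (1 / q)) := by
  have hqR : (0 : ℝ) < q := Nat.cast_pos.2 hq
  have h1 : ∀ t ρ : ℕ, rs q r (fun _ => 1) (ρ + q * t) = rs q r (fun _ => 1) ρ + t := by
    intro t ρ
    induction t with
    | zero => simp
    | succ t ih =>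
      rw [show ρ + q * (t + 1) = (ρ + q * t) + q from by ring, rs_one_block q r _ hq, ih]
      push_cast
      ring
  have h2 : ∀ N : ℕ, ‖rs q r (fun _ => 1) N - (N : ℂ) / q‖ ≤ q + 1 := by
    intro N
    have e1 : N = N % q + q * (N / q) := (Nat.mod_add_div N q).symm
    have hqc : (q : ℂ) ≠ 0 := by exact_mod_cast hq.ne'
    have e2 : rs q r (fun _ => 1) N - (N : ℂ) / q = rs q r (fun _ => 1) (N % q) - ((N % q : ℕ) : ℂ) / q := by
      have e3 : rs q r (fun _ => 1) N = rs q r (fun _ => 1) (N % q) + ((N / q : ℕ) : ℂ) := by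
        conv_lhs => rw [e1]
        exact h1 _ _
      have e4 : (N : ℂ) = ((N % q : ℕ) : ℂ) + q * ((N / q : ℕ) : ℂ) := by
        conv_lhs => rw [e1]
        push_cast
        ring
      rw [e3]
      conv_lhs => rw [e4]
      field_simp
      ring
    rw [e2]
    have hlt : N % q < q := Nat.mod_lt _ hq
    have b1 : ‖rs q r (fun _ => 1) (N % q)‖ ≤ q := by
      unfold rs
      refine (norm_sum_le _ _).trans ?_
      calc ∑ n ∈ Icc 1 (N % q), ‖(if n % q = r % q then (1 : ℂ) else 0)‖ ≤ ∑ n ∈ Icc 1 (N % q), (1 : ℝ) := by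
            refine sum_le_sum fun n _ => ?_
            split_ifs <;> simp
        _ = ((N % q : ℕ) : ℝ) := by simp
        _ ≤ q := by exact_mod_cast hlt.le
    have b2 : ‖((N % q : ℕ) : ℂ) / q‖ ≤ 1 := by
      rw [norm_div, Complex.norm_natCast, Complex.norm_natCast, div_le_one hqR]
      exact_mod_cast hlt.le
    exact (norm_sub_le _ _).trans (add_le_add b1 b2)
  have h3 : Tendsto (fun N : ℕ => (1 / (N : ℂ)) * rs q r (fun _ => 1) N - 1 / q) atTop (nhds 0) := by
    refine squeeze_zero_norm' (a := fun N : ℕ => ((q : ℝ) + 1) * (1 / (N : ℝ))) ?_ ?_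
    · filter_upwards [eventually_gt_atTop 0] with N hN
      have hNc : (N : ℂ) ≠ 0 := by exact_mod_cast hN.ne'
      have hNR : (0 : ℝ) < N := Nat.cast_pos.2 hN
      have e : (1 / (N : ℂ)) * rs q r (fun _ => 1) N - 1 / q =
          (1 / (N : ℂ)) * (rs q r (fun _ => 1) N - (N : ℂ) / q) := by field_simp
      rw [e, norm_mul, norm_div, norm_one, Complex.norm_natCast, mul_comm]
      exact mul_le_mul_of_nonneg_right (h2 N) (by positivity)
    · have := (tendsto_one_div_atTop_nhds_zero_nat (𝕜 := ℝ)).const_mul ((q : ℝ) + 1)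
      rwa [mul_zero] at this
  have h4 := h3.add_const (1 / (q : ℂ))
  rw [zero_add] at h4
  exact h4.congr fun N => by ring

lemma psav_class {q : ℕ} (hq : 0 < q) (r : ℕ) : PSav (fun n => if n % q = r % q then (1 : ℂ) else 0) (1 / q) := by
  have hqR : (0 : ℝ) < q := Nat.cast_pos.2 hq
  have hinj : Set.InjOn (fun k : ℕ => (k : ℝ) / q) (range q : Set ℕ) := by
    intro x _ y _ hxy
    simp only at hxy
    rw [div_left_inj' hqR.ne'] at hxy
    exact_mod_cast hxy
  obtain ⟨b, hb⟩ := psav_trig ((range q).image fun k : ℕ => (k : ℝ) / q)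
    (fun α => (1 / (q : ℂ)) * Complex.exp (-(2 * Real.pi * α * r) * Complex.I))
  have e : (fun n : ℕ => ∑ α ∈ (range q).image (fun k : ℕ => (k : ℝ) / q),
      (1 / (q : ℂ)) * Complex.exp (-(2 * Real.pi * α * r) * Complex.I) *
      Complex.exp (((2 * Real.pi * α * n : ℝ) : ℂ) * Complex.I)) =
      fun n => if n % q = r % q then (1 : ℂ) else 0 := by
    funext n
    rw [sum_image hinj, ← class_trig hq r n]
    refine sum_congr rfl fun k _ => ?_
    congr 3
    push_cast
    ring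
  rw [e] at hb
  have hbd : ∃ C : ℝ, ∀ n : ℕ, ‖(if n % q = r % q then (1 : ℂ) else 0)‖ ≤ C :=
    ⟨1, fun n => by split_ifs <;> simp⟩
  have h1 := psav_mean hb hbd
  have h2 := tendsto_nhds_unique h1 (rs_one_lim q r hq)
  rw [← h2]
  exact hb

/-- from boxes to one variable -/
theorem cont_of_box {b : ℕ → ℂ} {J : ℕ → ℂ} {K : ℝ}
    (hJ : ∀ N s : ℕ, ‖J (N + s) - J N‖ ≤ K * s) {k : ℕ} (hk : 0 < k) {c : Fin k → ℕ} (hc : ∀ i, 0 < c i)
    (h : ∀ r : ℕ, Tendsto (fun N : ℕ => (1 / (N : ℂ)) * rs (c ⟨0, hk⟩) r b N - (1 / (c ⟨0, hk⟩ : ℂ)) *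
      ((1 / (N : ℂ)) * J N)) atTop (nhds 0)) {L : ℂ}
    (hL : Tendsto (fun M => bavg M (fun m => b (nlin c m))) atTop (nhds L)) :
    Tendsto (fun N : ℕ => (1 / ((c ⟨0, hk⟩ * N : ℕ) : ℂ)) * J (c ⟨0, hk⟩ * N)) atTop (nhds L) := by
  set i : Fin k := ⟨0, hk⟩ with hi
  obtain ⟨q, hq⟩ : ∃ q : ℕ, q = c i := ⟨_, rfl⟩
  have hq0 : 0 < q := hq ▸ hc i
  have hqc : (q : ℂ) ≠ 0 := by exact_mod_cast hq0.ne'
  rw [← hq] at h ⊢
  -- one variable
  have h1 : ∀ s : ℕ, Tendsto (fun N : ℕ => (1 / (N : ℂ)) * ∑ n ∈ Icc 1 N, b (q * n + s) -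
      (1 / ((q * N : ℕ) : ℂ)) * J (q * N)) atTop (nhds 0) := by
    intro s
    have hlim : Tendsto (fun N : ℕ => q * N + s) atTop atTop :=
      tendsto_atTop_mono (fun N : ℕ => (Nat.le_mul_of_pos_left N hq0).trans (Nat.le_add_right _ _)) tendsto_id
    have t1 := (h s).comp hlim
    have t2 : Tendsto (fun N : ℕ => ((q : ℂ) * N + s) / N) atTop (nhds q) := by
      have t3 : Tendsto (fun N : ℕ => (q : ℂ) + s * (1 / (N : ℂ))) atTop (nhds (q + s * 0)) :=
        Tendsto.const_add _ ((tendsto_one_div_atTop_nhds_zero_nat (𝕜 := ℂ)).const_mul _)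
      rw [mul_zero, add_zero] at t3
      refine t3.congr' ?_
      filter_upwards [eventually_gt_atTop 0] with N hN
      have hNc : (N : ℂ) ≠ 0 := by exact_mod_cast hN.ne'
      field_simp
    have t4 := t2.mul t1
    rw [mul_zero] at t4
    have t5 : Tendsto (fun N : ℕ => (1 / (N : ℂ)) * rs q s b s) atTop (nhds 0) := by
      have := (tendsto_one_div_atTop_nhds_zero_nat (𝕜 := ℂ)).mul_const (rs q s b s)
      rwa [zero_mul] at this
    have t6 : Tendsto (fun N : ℕ => (1 / ((q * N : ℕ) : ℂ)) * (J (q * N + s) - J (q * N))) atTop (nhds 0) := by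
      refine squeeze_zero_norm' (a := fun N : ℕ => (K * s) * (1 / (N : ℝ))) ?_ ?_
      · filter_upwards [eventually_gt_atTop 0] with N hN
        have hNR : (0 : ℝ) < N := Nat.cast_pos.2 hN
        rw [norm_mul, norm_div, norm_one, Complex.norm_natCast, mul_comm]
        have hK : 0 ≤ K * s := (norm_nonneg _).trans (hJ (q * N) s)
        refine mul_le_mul (hJ _ _) ?_ (by positivity) hK
        refine one_div_le_one_div_of_le hNR ?_
        have : N ≤ q * N := Nat.le_mul_of_pos_left N hq0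
        exact_mod_cast this
      · have := (tendsto_one_div_atTop_nhds_zero_nat (𝕜 := ℝ)).const_mul (K * s)
        rwa [mul_zero] at this
    have t7 := (t4.sub t5).add t6
    rw [sub_zero, add_zero] at t7
    refine t7.congr' ?_
    filter_upwards [eventually_gt_atTop 0] with N hN
    have hNc : (N : ℂ) ≠ 0 := by exact_mod_cast hN.ne'
    have hNs : ((q : ℂ) * N + s) ≠ 0 := by
      have : q * N + s ≠ 0 := by positivity
      exact_mod_cast this
    simp only [Function.comp_apply]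
    rw [sum_prog q s hq0 b N]
    push_cast
    field_simp
    ring
  -- boxes
  rw [Metric.tendsto_atTop] at hL
  rw [Metric.tendsto_atTop]
  intro ε hε
  obtain ⟨M0, hM0⟩ := hL (ε / 2) (by positivity)
  set N0 : ℕ := (univ.sup M0) + 1 with hN0
  have hM0N : ∀ l, M0 l ≤ N0 := fun l => (Finset.le_sup (f := M0) (mem_univ l)).trans (Nat.le_succ _)
  set E : Finset (Fin k → ℕ) := box (Function.update (fun _ : Fin k => N0) i 1) with hE
  have hEne : E.Nonempty := box_nonempty fun l => by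
    by_cases hl : l = i
    · subst hl; rw [Function.update_self]
    · rw [Function.update_of_ne hl]; omega
  have h2 : ∀ᶠ N : ℕ in atTop, ∀ m ∈ E, ‖(1 / (N : ℂ)) * ∑ n ∈ Icc 1 N, b (q * n + ∑ l ∈ univ.erase i, c l * m l) -
      (1 / ((q * N : ℕ) : ℂ)) * J (q * N)‖ ≤ ε / 4 := by
    rw [Filter.eventually_all_finset]
    intro m _
    have := (Metric.tendsto_atTop.1 (h1 (∑ l ∈ univ.erase i, c l * m l))) (ε / 4) (by positivity)
    obtain ⟨N1, hN1⟩ := this
    filter_upwards [eventually_ge_atTop N1] with N hN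
    have := hN1 N hN
    rw [dist_zero_right] at this
    exact this.le
  rw [eventually_atTop] at h2
  obtain ⟨N1, hN1⟩ := h2
  refine ⟨max N0 N1, fun N hN => ?_⟩
  have hNN0 : N0 ≤ N := (le_max_left _ _).trans hN
  have h3 := hM0 (Function.update (fun _ : Fin k => N0) i N) (fun l => by
    by_cases hl : l = i
    · subst hl; rw [Function.update_self]; exact (hM0N _).trans hNN0
    · rw [Function.update_of_ne hl]; exact hM0N l)
  rw [bavg_split c i _ b, Function.update_idem, Function.update_self, ← hE, ← hq, dist_eq_norm] at h3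
  have h4 := mean_close E hEne (fun m => (1 / (N : ℂ)) * ∑ n ∈ Icc 1 N, b (q * n + ∑ l ∈ univ.erase i, c l * m l))
    ((1 / ((q * N : ℕ) : ℂ)) * J (q * N)) (ε / 4) (hN1 N ((le_max_right _ _).trans hN))
  rw [dist_eq_norm]
  have h5 := norm_sub_le ((1 / (E.card : ℂ)) * ∑ m ∈ E, (1 / (N : ℂ)) *
      ∑ n ∈ Icc 1 N, b (q * n + ∑ l ∈ univ.erase i, c l * m l) - L)
    ((1 / (E.card : ℂ)) * ∑ m ∈ E, (1 / (N : ℂ)) *
      ∑ n ∈ Icc 1 N, b (q * n + ∑ l ∈ univ.erase i, c l * m l) - (1 / ((q * N : ℕ) : ℂ)) * J (q * N))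
  rw [sub_sub_sub_cancel_left] at h5
  linarith

end Pool.Agent.R497.Er
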