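import Mathlib

set_option autoImplicit false

/-! The suspension flow of an invertible measure preserving map, on `ℝ × X` with Lebesgue measure on `[0, 1)` times `μ`. -/

namespace Pool.Agent.R497.Er

open MeasureTheory Filter Finset

universe u

/-- integer powers of an invertible map -/
noncomputable def zp {X : Type u} [MeasurableSpace X] (T : X ≃ᵐ X) (k : ℤ) (x : X) : X :=
  ((T.toEquiv : Equiv.Perm X) ^ k) x

lemma zp_natCast {X : Type u} [MeasurableSpace X] (T : X ≃ᵐ X) (n : ℕ) (x : X) : zp T n x = T^[n] x := by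
  unfold zp
  rw [zpow_natCast]
  exact (congrFun (Equiv.Perm.iterate_eq_pow (T.toEquiv : Equiv.Perm X) n) x).symm

lemma zp_neg_natCast {X : Type u} [MeasurableSpace X] (T : X ≃ᵐ X) (n : ℕ) (x : X) :
    zp T (-(n : ℤ)) x = T.symm^[n] x := by
  unfold zp
  rw [zpow_neg, zpow_natCast, ← inv_pow]
  exact (congrFun (Equiv.Perm.iterate_eq_pow ((T.toEquiv : Equiv.Perm X)⁻¹) n) x).symm

lemma zp_zero {X : Type u} [MeasurableSpace X] (T : X ≃ᵐ X) (x : X) : zp T 0 x = x := by
  simp [zp]

lemma zp_add {X : Type u} [MeasurableSpace X] (T : X ≃ᵐ X) (k l : ℤ) (x : X) : zp T (k + l) x = zp T k (zp T l x) := by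
  unfold zp
  rw [zpow_add, Equiv.Perm.mul_apply]

lemma zp_mp {X : Type u} [MeasurableSpace X] {μ : Measure X} (T : X ≃ᵐ X) (hT : MeasurePreserving T μ μ) (k : ℤ) :
    MeasurePreserving (zp T k) μ μ := by
  rcases Int.eq_nat_or_neg k with ⟨n, rfl | rfl⟩
  · rw [show zp T (n : ℤ) = T^[n] from funext (zp_natCast T n)]
    exact hT.iterate n
  · rw [show zp T (-(n : ℤ)) = T.symm^[n] from funext (zp_neg_natCast T n)]
    exact (hT.symm T).iterate n

lemma zp_meas {X : Type u} [MeasurableSpace X] (T : X ≃ᵐ X) (k : ℤ) : Measurable (zp T k) := by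
  rcases Int.eq_nat_or_neg k with ⟨n, rfl | rfl⟩
  · rw [show zp T (n : ℤ) = T^[n] from funext (zp_natCast T n)]
    exact T.measurable.iterate n
  · rw [show zp T (-(n : ℤ)) = T.symm^[n] from funext (zp_neg_natCast T n)]
    exact T.symm.measurable.iterate n

lemma zp_meas2 {X : Type u} [MeasurableSpace X] (T : X ≃ᵐ X) : Measurable (fun p : ℤ × X => zp T p.1 p.2) :=
  measurable_from_prod_countable_right fun k => zp_meas T k

/-- rotation of the fractional part preserves Lebesgue measure on `[0, 1)` -/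
lemma rot_mp (t : ℝ) : MeasurePreserving (fun s : ℝ => (⌊s⌋ : ℝ) + Int.fract (s + t))
    (volume.restrict (Set.Ico (0 : ℝ) 1)) (volume.restrict (Set.Ico (0 : ℝ) 1)) := by
  have hm : Measurable (fun s : ℝ => (⌊s⌋ : ℝ) + Int.fract (s + t)) := by
    refine Measurable.add ?_ ?_
    · exact (measurable_from_top (f := fun k : ℤ => (k : ℝ))).comp Int.measurable_floor
    · exact measurable_fract.comp (measurable_id.add_const t)
  refine ⟨hm, ?_⟩
  ext A hA
  rw [Measure.map_apply hm hA, Measure.restrict_apply (hm hA), Measure.restrict_apply hA]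
  obtain ⟨c, hc⟩ : ∃ c : ℝ, c = Int.fract t := ⟨_, rfl⟩
  have hc0 : 0 ≤ c := hc ▸ Int.fract_nonneg t
  have hc1 : c < 1 := hc ▸ Int.fract_lt_one t
  have key : ∀ s : ℝ, 0 ≤ s → s < 1 → (⌊s⌋ : ℝ) + Int.fract (s + t) = if s + c < 1 then s + c else s + (c - 1) := by
    intro s h0 h1
    have hfl : ⌊s⌋ = 0 := Int.floor_eq_zero_iff.2 ⟨h0, h1⟩
    have h2 : s + t = (s + c) + (⌊t⌋ : ℤ) := by
      rw [hc]
      have := Int.floor_add_fract t
      linarith
    rw [hfl, Int.cast_zero, zero_add, h2, Int.fract_add_intCast]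
    split_ifs with h3
    · exact Int.fract_eq_self.2 ⟨by linarith, h3⟩
    · rw [Int.fract_eq_iff]
      refine ⟨by linarith, by linarith, 1, by push_cast; ring⟩
  have e1 : (fun s : ℝ => (⌊s⌋ : ℝ) + Int.fract (s + t)) ⁻¹' A ∩ Set.Ico 0 1 =
      ((fun s : ℝ => s + c) ⁻¹' (A ∩ Set.Ico c 1)) ∪ ((fun s : ℝ => s + (c - 1)) ⁻¹' (A ∩ Set.Ico 0 c)) := by
    ext s
    simp only [Set.mem_inter_iff, Set.mem_preimage, Set.mem_Ico, Set.mem_union]
    constructor
    · rintro ⟨h1, h2, h3⟩
      rw [key s h2 h3] at h1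
      split_ifs at h1 with h4
      · exact Or.inl ⟨h1, by linarith, h4⟩
      · exact Or.inr ⟨h1, by linarith, by linarith⟩
    · rintro (⟨h1, h2, h3⟩ | ⟨h1, h2, h3⟩)
      · have h4 : 0 ≤ s := by linarith
        have h5 : s < 1 := by linarith
        refine ⟨?_, h4, h5⟩
        rw [key s h4 h5, if_pos h3]
        exact h1
      · have h4 : 0 ≤ s := by linarith
        have h5 : s < 1 := by linarith
        refine ⟨?_, h4, h5⟩
        rw [key s h4 h5, if_neg (by linarith)]
        exact h1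
  have hd : Disjoint ((fun s : ℝ => s + c) ⁻¹' (A ∩ Set.Ico c 1)) ((fun s : ℝ => s + (c - 1)) ⁻¹' (A ∩ Set.Ico 0 c)) := by
    rw [Set.disjoint_left]
    rintro s ⟨_, _, h3⟩ ⟨_, h5, _⟩
    simp only at h3 h5
    linarith
  have hm2 : MeasurableSet ((fun s : ℝ => s + (c - 1)) ⁻¹' (A ∩ Set.Ico 0 c)) :=
    (measurable_id.add_const _) (hA.inter measurableSet_Ico)
  have hd2 : Disjoint (A ∩ Set.Ico c 1) (A ∩ Set.Ico 0 c) := by
    rw [Set.disjoint_left]
    rintro s ⟨_, h2, _⟩ ⟨_, _, h6⟩
    linarith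
  rw [e1, measure_union hd hm2, measure_preimage_add_right, measure_preimage_add_right,
    ← measure_union hd2 (hA.inter measurableSet_Ico), ← Set.inter_union_distrib_left, Set.union_comm,
    Set.Ico_union_Ico_eq_Ico hc0 hc1.le]

/-- the suspension flow -/
noncomputable def sus {X : Type u} [MeasurableSpace X] (T : X ≃ᵐ X) (t : ℝ) (p : ℝ × X) : ℝ × X :=
  ((⌊p.1⌋ : ℝ) + Int.fract (p.1 + t), zp T ⌊Int.fract p.1 + t⌋ p.2)

lemma sus_meas {X : Type u} [MeasurableSpace X] (T : X ≃ᵐ X) : Measurable (fun p : ℝ × (ℝ × X) => sus T p.1 p.2) := by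
  unfold sus
  refine Measurable.prodMk ?_ ?_
  · refine Measurable.add ?_ ?_
    · exact (measurable_from_top (f := fun k : ℤ => (k : ℝ))).comp
        (Int.measurable_floor.comp (measurable_fst.comp measurable_snd))
    · exact measurable_fract.comp ((measurable_fst.comp measurable_snd).add measurable_fst)
  · refine (zp_meas2 T).comp (Measurable.prodMk ?_ (measurable_snd.comp measurable_snd))
    exact Int.measurable_floor.comp ((measurable_fract.comp (measurable_fst.comp measurable_snd)).add measurable_fst)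

lemma sus_zero {X : Type u} [MeasurableSpace X] (T : X ≃ᵐ X) (p : ℝ × X) : sus T 0 p = p := by
  unfold sus
  have h1 : ⌊Int.fract p.1 + 0⌋ = 0 := by
    rw [add_zero]
    exact Int.floor_fract _
  rw [h1, zp_zero, add_zero, Int.floor_add_fract]

lemma sus_add {X : Type u} [MeasurableSpace X] (T : X ≃ᵐ X) (t u : ℝ) (p : ℝ × X) :
    sus T (t + u) p = sus T t (sus T u p) := by
  obtain ⟨s, x⟩ := p
  have hfl : ⌊(⌊s⌋ : ℝ) + Int.fract (s + u)⌋ = ⌊s⌋ := by
    rw [Int.floor_intCast_add, Int.floor_fract, add_zero]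
  have hfr : Int.fract ((⌊s⌋ : ℝ) + Int.fract (s + u)) = Int.fract (s + u) := by
    rw [Int.fract_intCast_add, Int.fract_fract]
  have hfr2 : Int.fract (s + u) = Int.fract (Int.fract s + u) := by
    rw [show s + u = (Int.fract s + u) + (⌊s⌋ : ℤ) from by
      have := Int.floor_add_fract s
      linarith, Int.fract_add_intCast]
  unfold sus
  simp only
  rw [hfl, hfr]
  refine Prod.ext ?_ ?_
  · simp only
    congr 1
    rw [show (⌊s⌋ : ℝ) + Int.fract (s + u) + t = (s + (t + u)) + ((⌊s⌋ - ⌊s + u⌋ : ℤ) : ℝ) from by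
      have := Int.floor_add_fract (s + u)
      push_cast
      linarith, Int.fract_add_intCast]
  · simp only
    rw [hfr2, ← zp_add]
    congr 1
    rw [← Int.floor_add_intCast]
    congr 1
    have := Int.floor_add_fract (Int.fract s + u)
    linarith

lemma sus_mp {X : Type u} [MeasurableSpace X] {μ : Measure X} [SFinite μ] (T : X ≃ᵐ X)
    (hT : MeasurePreserving T μ μ) (t : ℝ) :
    MeasurePreserving (sus T t) ((volume.restrict (Set.Ico (0 : ℝ) 1)).prod μ)
      ((volume.restrict (Set.Ico (0 : ℝ) 1)).prod μ) := by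
  refine MeasurePreserving.skew_product (f := fun s : ℝ => (⌊s⌋ : ℝ) + Int.fract (s + t))
    (g := fun (s : ℝ) (x : X) => zp T ⌊Int.fract s + t⌋ x) (rot_mp t) ?_ ?_
  · refine (zp_meas2 T).comp (Measurable.prodMk ?_ measurable_snd)
    exact Int.measurable_floor.comp ((measurable_fract.comp measurable_fst).add_const t)
  · exact ae_of_all _ fun s => (zp_mp T hT _).map_eq

instance : IsProbabilityMeasure ((volume : Measure ℝ).restrict (Set.Ico (0 : ℝ) 1)) :=
  ⟨by rw [Measure.restrict_apply_univ, Real.volume_Ico]; simp⟩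

end Pool.Agent.R497.Er
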